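import Pool.Agent.helper74.MQ.Spec

/-!
# Project mq: (MP_af9036_an), module CONF: adjacent chosen rays force a strip over a whole arc
-/

set_option autoImplicit false

open Complex Metric Set Filter Topology MeasureTheory MPS

noncomputable section

namespace MQ

/-- a sequence with gaps at least `γ ≥ 0` is increasing -/
theorem CONF_mono {γ : ℝ} {ce : ℤ → ℝ} (hγ : 0 ≤ γ) (gap : ∀ j, ce j + γ ≤ ce (j + 1)) {p q : ℤ}
    (h : p ≤ q) : ce p ≤ ce q := by
  obtain ⟨t, rfl⟩ := Int.le.dest h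
  induction t with
  | zero => simp
  | succ t ih =>
    have h1 := gap (p + t)
    have h2 := ih (by omega)
    have h3 : p + ((t + 1 : ℕ) : ℤ) = p + t + 1 := by push_cast; ring
    rw [h3]
    linarith

theorem CONF_lt {γ : ℝ} {ce : ℤ → ℝ} (hγ : 0 ≤ γ) (gap : ∀ j, ce j + γ ≤ ce (j + 1)) {p q : ℤ}
    (h : p < q) : ce p + γ ≤ ce q :=
  (gap p).trans (CONF_mono hγ gap (by omega))

theorem CONF (hADJ : ADJ_stmt) (hSTR : STR_stmt) (hSYM : SYM_stmt) (hDPR : DPR_stmt) :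
    CONF_stmt := by
  intro k _ b g ψ fam γ Λ N ce α rep τ hγ hγ1 hΛ hW hR i l j j' ζ m h r s a hloc hi hl
  have hΛ0 : 0 < Λ := by linarith
  have hTi : 0 ≤ τ i j := (hDPR k b g ψ fam i).2.2.1 _ _ (hR.dep i j)
  have hTl : 0 ≤ τ l j' := (hDPR k b g ψ fam l).2.2.1 _ _ (hR.dep l j')
  obtain ⟨e, he, hst⟩ := hADJ k b g ψ fam i l (rep i j) (rep l j') (τ i j) (τ l j') ζ m h r s a
    hloc hTi hTl hi hl
  obtain ⟨w₀, ta, tb, hew, hst0, hda, hdb, hab⟩ := hSTR k b g ψ fam i l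
    (((τ i j + τ l j' : ℝ) : ℂ) + ((rep i j + rep l j' : ℝ) : ℂ) * I) (rep i j) e (τ i j) he hst
    (hR.dep i j)
  have hre : (((τ i j + τ l j' : ℝ) : ℂ) + ((rep i j + rep l j' : ℝ) : ℂ) * I).re =
      τ i j + τ l j' := by simp
  have him : (((τ i j + τ l j' : ℝ) : ℂ) + ((rep i j + rep l j' : ℝ) : ℂ) * I).im =
      rep i j + rep l j' := by simp
  rw [hre] at hab
  rw [him] at hdb
  have hw0 : 0 < w₀ := by linarith
  have hb : rep i j + rep l j' - rep i j + w₀ = rep l j' + w₀ := by ring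
  rw [hb] at hdb
  have hta : 0 ≤ ta := (hDPR k b g ψ fam i).2.2.1 _ _ hda
  have htb : 0 ≤ tb := (hDPR k b g ψ fam l).2.2.1 _ _ hdb
  -- sizes
  have hs1 : γ / Λ ≤ γ / 1000 := div_le_div_of_nonneg_left hγ.le (by norm_num) hΛ
  have hs0 : 0 < γ / Λ := div_pos hγ hΛ0
  have hs2 : 2 * (γ / Λ ^ 3) ≤ γ / Λ ^ 2 := by
    have h1 : γ / Λ ^ 3 = γ / Λ ^ 2 / Λ := by field_simp
    have h2 : γ / Λ ^ 2 / Λ ≤ γ / Λ ^ 2 / 2 :=
      div_le_div_of_nonneg_left (by positivity) (by norm_num) (by linarith)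
    rw [h1]
    linarith
  have hsi := hR.small i j
  have hsl := hR.small l j'
  obtain ⟨j₁, hj₁⟩ := hW.cov i (rep i j - w₀) ta hda (by linarith)
  obtain ⟨j₂, hj₂⟩ := hW.cov l (rep l j' + w₀) tb hdb (by linarith)
  have hn1 := abs_le.1 (hR.near i j)
  have hn2 := abs_le.1 (hR.near l j')
  have h1 := abs_le.1 hj₁
  have h2 := abs_le.1 hj₂
  have hle1 : j₁ ≤ j := by
    by_contra hc
    have := CONF_lt hγ.le hW.gap (show j < j₁ by omega)
    linarith [hn1.1, hn1.2, h1.1, h1.2]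
  have hle2 : j' ≤ j₂ := by
    by_contra hc
    have := CONF_lt hγ.le hW.gap (show j₂ < j' by omega)
    linarith [hn2.1, hn2.2, h2.1, h2.2]
  have hlt1 : j₁ < j := by
    by_contra hc
    have e1 : j₁ = j := by omega
    rw [e1] at h1 hj₁
    have hw : w₀ ≤ 2 * (γ / Λ) := by linarith [hn1.1, hn1.2, h1.1, h1.2]
    have e2 : j₂ = j' := by
      by_contra hc2
      have := CONF_lt hγ.le hW.gap (show j' < j₂ by omega)
      linarith [hn2.1, hn2.2, h2.1, h2.2]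
    rw [e2] at hj₂
    have m1 := (hR.min i j _ ta hj₁ hda).1
    have m2 := hR.min l j' _ tb hj₂ hdb
    have e3 : tb = τ l j' := le_antisymm (by linarith) m2.1
    linarith [m2.2 e3]
  have hlt2 : j' < j₂ := by
    by_contra hc
    have e2 : j₂ = j' := by omega
    rw [e2] at h2
    have hw : w₀ ≤ 2 * (γ / Λ) := by linarith [hn2.1, hn2.2, h2.1, h2.2]
    have := CONF_lt hγ.le hW.gap hlt1
    linarith [hn1.1, hn1.2, h1.1, h1.2]
  have hpi := (fam.mx i).pn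
  have hpl := (fam.mx l).pn
  have hsym := hSYM k b g i l (ψ i) (ψ l) hpi hpl _ _ _ hst0
  have e1 : j₁ = j - 1 := by
    by_contra hc
    have g1 := CONF_lt hγ.le hW.gap (show j₁ < j - 1 by omega)
    have g2 := CONF_lt hγ.le hW.gap (show j - 1 < j by omega)
    have n3 := abs_le.1 (hR.near i (j - 1))
    refine hsym.2.2.2.1 (rep i (j - 1)) (τ i (j - 1)) ?_ ?_ (hR.dep i (j - 1)).1
    · linarith [n3.1, n3.2, h1.1, h1.2]
    · linarith [n3.1, n3.2, hn1.1, hn1.2]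
  have e2 : j₂ = j' + 1 := by
    by_contra hc
    have g1 := CONF_lt hγ.le hW.gap (show j' + 1 < j₂ by omega)
    have g2 := hW.gap j'
    have n3 := abs_le.1 (hR.near l (j' + 1))
    have hsym2 := hSYM k b g l i (ψ l) (ψ i) hpl hpi _ _ _ hsym.1
    rw [him] at hsym2
    refine hsym2.2.2.2.1 (rep l (j' + 1)) (τ l (j' + 1)) ?_ ?_ (hR.dep l (j' + 1)).1
    · linarith [n3.1, n3.2, hn2.1, hn2.2]
    · linarith [n3.1, n3.2, h2.1, h2.2]
  rw [e1] at hj₁
  rw [e2] at hj₂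
  exact ⟨w₀, hw0, hst0, hj₁, hj₂⟩

end MQ
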