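import Pool.Agent.helper74.MQ.Spec

/-!
# Project mq: (MP_af9036_an), module WR: rotation of the windows of one cylinder
-/

set_option autoImplicit false

open Complex Metric Set Filter Topology MeasureTheory MPS

noncomputable section

namespace MQ

/-- a sequence with gaps more than `γ ≥ 0` is increasing -/
theorem WR_mono {γ : ℝ} {ce : ℤ → ℝ} (hγ : 0 ≤ γ) (gap : ∀ j, ce j + γ < ce (j + 1)) {p q : ℤ}
    (h : p ≤ q) : ce p ≤ ce q := by
  obtain ⟨t, rfl⟩ := Int.le.dest h
  induction t with
  | zero => simp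
  | succ t ih =>
    have h1 := gap (p + t)
    have h2 := ih (by omega)
    have h3 : p + ((t + 1 : ℕ) : ℤ) = p + t + 1 := by push_cast; ring
    rw [h3]
    linarith

theorem WR_lt {γ : ℝ} {ce : ℤ → ℝ} (hγ : 0 ≤ γ) (gap : ∀ j, ce j + γ < ce (j + 1)) {p q : ℤ}
    (h : p < q) : ce p + γ < ce q :=
  (gap p).trans_le (WR_mono hγ gap (by omega))

/-- values closer than the gap have the same index -/
theorem WR_eq {γ : ℝ} {ce : ℤ → ℝ} (hγ : 0 ≤ γ) (gap : ∀ j, ce j + γ < ce (j + 1)) {p q : ℤ}
    (h : |ce p - ce q| ≤ γ) : p = q := by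
  have h1 := abs_le.1 h
  rcases lt_trichotomy p q with h2 | h2 | h2
  · have := WR_lt hγ gap h2
    linarith [h1.1]
  · exact h2
  · have := WR_lt hγ gap h2
    linarith [h1.2]

/-- a strictly increasing map of the integers commuting with a translation is a translation -/
theorem WR_trans (σ : ℤ → ℤ) (N : ℕ) (hN : 1 ≤ N) (hm : ∀ p q, p < q → σ p < σ q)
    (hper : ∀ j, σ (j + N) = σ j + N) (j : ℤ) : σ (j - σ 0) = j := by
  have hge : ∀ (t : ℕ) (p : ℤ), σ p + t ≤ σ (p + t) := by
    intro t
    induction t with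
    | zero => intro p; simp
    | succ t ih =>
      intro p
      have h1 := ih p
      have h2 := hm (p + t) (p + t + 1) (by omega)
      push_cast
      rw [← add_assoc, ← add_assoc]
      omega
  have hone : ∀ p, σ (p + 1) = σ p + 1 := by
    intro p
    have h1 := hm p (p + 1) (by omega)
    have h2 := hge (N - 1) (p + 1)
    have h3 := hper p
    have h4 : p + 1 + ((N - 1 : ℕ) : ℤ) = p + N := by omega
    rw [h4, h3] at h2
    omega
  have hall : ∀ p, σ p = p + σ 0 := by
    intro p
    induction p using Int.induction_on with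
    | zero => simp
    | succ p ih => rw [hone, ih]; ring
    | pred p ih =>
      have h1 := hone (-p - 1)
      have h2 : -(p : ℤ) - 1 + 1 = -p := by ring
      rw [h2, ih] at h1
      omega
  rw [hall]
  ring

theorem WR (hDPR : DPR_stmt) : WR_stmt := by
  intro k _ b g ψ fam i₀ γ Λ d θ N ce hγ hγ1 hΛ hd hdle hN hper hgap hdep hcrit hnear hrot hθ
  obtain ⟨-, -, -, -, h5, h6, -⟩ := hDPR k b g ψ fam i₀
  have hΛ0 : 0 < Λ := by linarith
  set ω : ℝ := γ / (2 * Λ) with hω
  have hω0 : 0 < ω := by positivity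
  have h2ω : γ / Λ = 2 * ω := by rw [hω]; field_simp
  have hωγ : 1000 * ω ≤ γ := by
    rw [hω, mul_div_assoc', div_le_iff₀ (by positivity)]
    nlinarith
  have hdω : 100 * d ≤ ω := by
    have h1 : γ / (256 * Λ ^ 3) ≤ ω / 100 := by
      rw [hω, div_div, div_le_div_iff₀ (by positivity) (by positivity)]
      have h2 : 200 * Λ ≤ 256 * Λ ^ 3 := by
        have h3 : Λ ≤ Λ ^ 3 := by
          have : Λ * 1 ≤ Λ * Λ ^ 2 := by
            apply mul_le_mul_of_nonneg_left _ hΛ0.le
            nlinarith
          calc Λ = Λ * 1 := by ring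
            _ ≤ Λ * Λ ^ 2 := this
            _ = Λ ^ 3 := by ring
        nlinarith
      nlinarith
    linarith
  have hσ : ∀ j : ℤ, ∃ p : ℤ, |ce p - (ce j + θ)| ≤ 2 * ω := by
    intro j
    by_contra hc
    push Not at hc
    have hfl : Flat b g (ψ i₀) (ce j + θ) ω := by
      refine h6 (ce j + θ) ω hω0 fun y' T hy' hT => ?_
      rcases hdep y' T hT with h | h
      · obtain ⟨p, hp⟩ := hnear y' T hT h
        have h1 := hc p
        have h2 : |ce p - (ce j + θ)| ≤ |y' - ce p| + |y' - (ce j + θ)| := by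
          have h3 : ce p - (ce j + θ) = -(y' - ce p) + (y' - (ce j + θ)) := by ring
          rw [h3]
          exact (abs_add_le _ _).trans (by rw [abs_neg])
        linarith
      · linarith
    have h1 := hrot _ hfl
    rw [add_sub_cancel_right] at h1
    obtain ⟨T, hT, hTd⟩ := hcrit j
    have h2 := h5 _ T _ h1 hT
    linarith
  choose σ hσ using hσ
  have hmono : ∀ p q, p < q → σ p < σ q := by
    intro p q hpq
    by_contra hc
    have h1 := WR_mono hγ.le hgap (not_lt.1 hc)
    have h2 := WR_lt hγ.le hgap hpq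
    have h3 := abs_le.1 (hσ p)
    have h4 := abs_le.1 (hσ q)
    linarith [h3.1, h3.2, h4.1, h4.2]
  have hperσ : ∀ j, σ (j + N) = σ j + N := by
    intro j
    apply WR_eq hγ.le hgap
    rw [hper]
    have h1 := abs_le.1 (hσ (j + N))
    have h2 := abs_le.1 (hσ j)
    rw [hper] at h1
    rw [abs_le]
    constructor <;> linarith [h1.1, h1.2, h2.1, h2.2]
  constructor
  · by_contra hc
    have hN1 : N = 1 := by omega
    subst hN1
    have hall : ∀ p : ℤ, ce p = ce 0 + p * (2 * Real.pi) := by
      intro p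
      induction p using Int.induction_on with
      | zero => simp
      | succ p ih =>
        have h1 := hper p
        push_cast at h1 ⊢
        rw [h1, ih]
        push_cast
        ring
      | pred p ih =>
        have h1 := hper (-p - 1)
        have h2 : -(p : ℤ) - 1 + ((1 : ℕ) : ℤ) = -p := by push_cast; ring
        rw [h2, ih] at h1
        push_cast at h1 ⊢
        linarith
    have h1 := hσ 0
    rw [hall (σ 0)] at h1
    have h2 : ce 0 + (σ 0 : ℝ) * (2 * Real.pi) - (ce 0 + θ) = -(θ - (σ 0 : ℝ) * (2 * Real.pi)) := by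
      ring
    rw [h2, abs_neg] at h1
    have h3 : Complex.exp (θ * I) = Complex.exp (I * ((θ - (σ 0 : ℝ) * (2 * Real.pi) : ℝ) : ℂ)) := by
      rw [Complex.exp_eq_exp_iff_exists_int]
      refine ⟨σ 0, ?_⟩
      push_cast
      ring
    have h4 := Real.norm_exp_I_mul_ofReal_sub_one_le (x := θ - (σ 0 : ℝ) * (2 * Real.pi))
    rw [Real.norm_eq_abs] at h4
    rw [h3] at hθ
    linarith
  · intro j
    refine ⟨j - σ 0, 0, ?_⟩
    have h1 := hσ (j - σ 0)
    rw [WR_trans σ N hN hmono hperσ j] at h1
    rw [h2ω]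
    have h2 : ce (j - σ 0) - (ce j - θ) + ((0 : ℤ) : ℝ) * (2 * Real.pi) =
        -(ce j - (ce (j - σ 0) + θ)) := by push_cast; ring
    rw [h2, abs_neg]
    exact h1

end MQ
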